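import Mathlib
import Pool.Agent.V11270.KC.Main

set_option autoImplicit false

/-!
# The lower bound of the pair correlation conjecture on every difference set, unconditionally

No hypothesis is assumed. Among any sufficiently many translates of the zeros of zeta (by arbitrary
real numbers) the joint moments of the numbers of zeros in `k` windows of `κ` mean spacings, at `k`
different translates, are on average at least `(1 - ε) κ ^ k`, the value for independent random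
points. For `k = 2` this is a lower bound for Montgomery's function `N(T; b - κ, b + κ)` on average
over the differences `b` of any sufficiently large finite set of real numbers.

Proof. Moments of all orders of the number of zeros in windows of the length of the mean spacing
(`Pool.Agent.Y750.OM.cntmom` of the starting library), and the convexity of `x ^ k` applied to the
sum of all the translated counting functions.
-/

open Filter Topology MeasureTheory

namespace Pool.Agent.Results.MP_00e05b_nt.TranslatesAverage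

/-- multiplicity of `s` as a zero of the Riemann zeta function (order of vanishing at `s`) -/
noncomputable def zmult (s : ℂ) : ℕ := analyticOrderNatAt riemannZeta s

/-- the nontrivial zeros of zeta with ordinate in `(0, T]`, on or off the critical line -/
def zeros (T : ℝ) : Set ℂ :=
  {s : ℂ | riemannZeta s = 0 ∧ 0 < s.re ∧ s.re < 1 ∧ 0 < s.im ∧ s.im ≤ T}

/-- the number (with multiplicity) of the zeros in `zeros T` with ordinate in the open interval with
centre `x` and length `κ * (2 π / log T)`, that is `κ` mean spacings -/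
noncomputable def count (T κ x : ℝ) : ℝ :=
  ∑ᶠ s ∈ {s : ℂ | s ∈ zeros T ∧ |s.im - x| < κ * (Real.pi / Real.log T)}, (zmult s : ℝ)

/-- the joint moment of the counts at `k` translates -/
noncomputable def joint {k : ℕ} (T κ : ℝ) (β : Fin k → ℝ) : ℝ :=
  1 / T * ∫ x : ℝ, ∏ l, count T κ (x + β l)

/-- Montgomery's `N(T; α, β)`: the number (with multiplicity) of the pairs of zeros with ordinates
`γ, γ'` in `(0, T]` such that `2 π α / log T ≤ γ - γ' ≤ 2 π β / log T` -/
noncomputable def pairs (T α β : ℝ) : ℝ :=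
  ∑ᶠ p ∈ {p : ℂ × ℂ | p.1 ∈ zeros T ∧ p.2 ∈ zeros T ∧
    2 * Real.pi * α / Real.log T ≤ p.1.im - p.2.im ∧
    p.1.im - p.2.im ≤ 2 * Real.pi * β / Real.log T}, (zmult p.1 : ℝ) * (zmult p.2 : ℝ)

open V11270.KC

lemma mem_zeros {T : ℝ} {s : ℂ} : s ∈ zeros T ↔ s ∈ Z0 T := by
  rw [mem_Z0]
  unfold zeros
  rw [Set.mem_ofPred_eq]
  tauto

lemma count_eq (T κ x : ℝ) : count T κ x = V (Z0 T) (Real.pi * κ / Real.log T) x := by
  classical
  unfold count V
  have h : {s : ℂ | s ∈ zeros T ∧ |s.im - x| < κ * (Real.pi / Real.log T)} =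
      (((Z0 T).filter (fun s => |s.im - x| < Real.pi * κ / Real.log T) : Finset ℂ) : Set ℂ) := by
    ext s
    rw [Finset.coe_filter, Set.mem_ofPred_eq, Set.mem_ofPred_eq, mem_zeros]
    have e : κ * (Real.pi / Real.log T) = Real.pi * κ / Real.log T := by ring
    rw [e]
  rw [h, finsum_mem_coe_finset]
  rfl

lemma pairs_eq (T α β : ℝ) : pairs T α β = ∑ p ∈ (Z0 T ×ˢ Z0 T).filter (fun p =>
    2 * Real.pi * α / Real.log T ≤ p.1.im - p.2.im ∧
    p.1.im - p.2.im ≤ 2 * Real.pi * β / Real.log T), (zmult p.1 : ℝ) * (zmult p.2 : ℝ) := by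
  classical
  unfold pairs
  have h : {p : ℂ × ℂ | p.1 ∈ zeros T ∧ p.2 ∈ zeros T ∧
      2 * Real.pi * α / Real.log T ≤ p.1.im - p.2.im ∧
      p.1.im - p.2.im ≤ 2 * Real.pi * β / Real.log T} =
      (((Z0 T ×ˢ Z0 T).filter (fun p => 2 * Real.pi * α / Real.log T ≤ p.1.im - p.2.im ∧
        p.1.im - p.2.im ≤ 2 * Real.pi * β / Real.log T) : Finset (ℂ × ℂ)) : Set (ℂ × ℂ)) := by
    ext p
    rw [Finset.coe_filter, Set.mem_ofPred_eq, Set.mem_ofPred_eq, Finset.mem_product, mem_zeros,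
      mem_zeros, and_assoc]
  rw [h, finsum_mem_coe_finset]

lemma pairs_symm (T b κ : ℝ) : pairs T (-b - κ) (-b + κ) = pairs T (b - κ) (b + κ) := by
  classical
  rw [pairs_eq, pairs_eq]
  refine Finset.sum_nbij' Prod.swap Prod.swap ?_ ?_ (fun _ _ => rfl) (fun _ _ => rfl) ?_
  · intro p hp
    rw [Finset.mem_filter, Finset.mem_product] at hp ⊢
    obtain ⟨⟨h1, h2⟩, h3, h4⟩ := hp
    refine ⟨⟨h2, h1⟩, ?_, ?_⟩
    · have e : 2 * Real.pi * (b - κ) / Real.log T = -(2 * Real.pi * (-b + κ) / Real.log T) := by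
        ring
      rw [e, Prod.fst_swap, Prod.snd_swap]
      linarith
    · have e : 2 * Real.pi * (b + κ) / Real.log T = -(2 * Real.pi * (-b - κ) / Real.log T) := by
        ring
      rw [e, Prod.fst_swap, Prod.snd_swap]
      linarith
  · intro p hp
    rw [Finset.mem_filter, Finset.mem_product] at hp ⊢
    obtain ⟨⟨h1, h2⟩, h3, h4⟩ := hp
    refine ⟨⟨h2, h1⟩, ?_, ?_⟩
    · have e : 2 * Real.pi * (-b - κ) / Real.log T = -(2 * Real.pi * (b + κ) / Real.log T) := by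
        ring
      rw [e, Prod.fst_swap, Prod.snd_swap]
      linarith
    · have e : 2 * Real.pi * (-b + κ) / Real.log T = -(2 * Real.pi * (b - κ) / Real.log T) := by
        ring
      rw [e, Prod.fst_swap, Prod.snd_swap]
      linarith
  · intro p _
    rw [Prod.fst_swap, Prod.snd_swap, mul_comm]

/-- the joint moments -/
lemma joint_part (k : ℕ) (hk : 1 ≤ k) (κ : ℝ) (hκ : 0 < κ) : ∃ C : ℝ, 0 < C ∧
    ∀ ε : ℝ, 0 < ε → ε < 1 → ∃ θ T0 : ℝ, 0 < θ ∧ 10 ≤ T0 ∧ ∀ T : ℝ, T0 ≤ T →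
      ∀ R : ℕ, C / ε ≤ R → ∀ α : Fin R → ℝ, (∀ i j, |α i - α j| ≤ θ * T) →
        (1 - ε) * κ ^ k ≤ 1 / (R : ℝ) ^ k * ∑ e : Fin k ↪ Fin R, joint T κ (fun l => α (e l)) := by
  obtain ⟨C, hC, h⟩ := main k hk κ hκ
  refine ⟨C, hC, fun ε h0 h1 => ?_⟩
  obtain ⟨θ, T0, hθ, hT0, h2⟩ := h ε h0 h1
  refine ⟨θ, T0, hθ, hT0, fun T hT R hR α hα => ?_⟩
  refine (h2 T hT R hR α hα).trans (le_of_eq ?_)
  unfold joint
  simp_rw [count_eq]

/-- the pairs -/
lemma pairs_part (κ : ℝ) (hκ : 0 < κ) : ∃ C : ℝ, 0 < C ∧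
    ∀ ε : ℝ, 0 < ε → ε < 1 → ∃ θ T0 : ℝ, 0 < θ ∧ 10 ≤ T0 ∧ ∀ T : ℝ, T0 ≤ T →
      ∀ R : ℕ, C / ε ≤ R → ∀ a : Fin R → ℝ, (∀ i j, |a i - a j| ≤ θ * (T * Real.log T)) →
        (1 - ε) * κ * (T / (2 * Real.pi) * Real.log T) ≤ 1 / (R : ℝ) ^ 2 *
          ∑ e : Fin 2 ↪ Fin R, pairs T (a (e 0) - a (e 1) - κ) (a (e 0) - a (e 1) + κ) := by
  classical
  obtain ⟨C, hC, h⟩ := main 2 (by norm_num) κ hκ
  refine ⟨C, hC, fun ε h0 h1 => ?_⟩
  obtain ⟨θ, T0, hθ, hT0, h2⟩ := h ε h0 h1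
  have hpi := Real.pi_pos
  refine ⟨θ / (2 * Real.pi), T0, by positivity, hT0, fun T hT R hR a ha => ?_⟩
  have hTp : 0 < T := by linarith
  have hL0 : 0 < Real.log T := Real.log_pos (by linarith)
  have h3 := h2 T hT R hR (fun i => 2 * Real.pi * a i / Real.log T) (fun i j => by
    have e : 2 * Real.pi * a i / Real.log T - 2 * Real.pi * a j / Real.log T =
        2 * Real.pi * (a i - a j) / Real.log T := by ring
    rw [e, abs_div, abs_mul, abs_of_pos hL0, abs_of_pos (show 0 < 2 * Real.pi by positivity),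
      div_le_iff₀ hL0]
    have h4 := mul_le_mul_of_nonneg_left (ha i j) (show 0 ≤ 2 * Real.pi by positivity)
    refine h4.trans (le_of_eq ?_)
    field_simp)
  obtain ⟨ρ, hρ⟩ : ∃ ρ : ℝ, ρ = Real.pi * κ / Real.log T := ⟨_, rfl⟩
  have hρ0 : 0 < ρ := by rw [hρ]; positivity
  rw [← hρ] at h3
  have h5 : ∀ e : Fin 2 ↪ Fin R, 1 / T * ∫ x, ∏ l, V (Z0 T) ρ
      (x + 2 * Real.pi * a (e l) / Real.log T) ≤
      1 / T * (2 * ρ * pairs T (a (e 0) - a (e 1) - κ) (a (e 0) - a (e 1) + κ)) := by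
    intro e
    refine mul_le_mul_of_nonneg_left ?_ (by positivity)
    simp_rw [Fin.prod_univ_two]
    refine (pair_bound (Z0 T) hρ0 _ _).trans (le_of_eq ?_)
    rw [pairs_eq]
    congr 1
    refine Finset.sum_congr ?_ fun p _ => rfl
    refine Finset.filter_congr fun p _ => ?_
    have e1 : 2 * Real.pi * (a (e 0) - a (e 1) - κ) / Real.log T =
        2 * Real.pi * a (e 0) / Real.log T - 2 * Real.pi * a (e 1) / Real.log T - 2 * ρ := by
      rw [hρ]
      ring
    have e2 : 2 * Real.pi * (a (e 0) - a (e 1) + κ) / Real.log T =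
        2 * Real.pi * a (e 0) / Real.log T - 2 * Real.pi * a (e 1) / Real.log T + 2 * ρ := by
      rw [hρ]
      ring
    rw [e1, e2, abs_le]
    constructor
    · rintro ⟨g1, g2⟩
      constructor <;> linarith
    · rintro ⟨g1, g2⟩
      constructor <;> linarith
  have h6 := h3.trans (mul_le_mul_of_nonneg_left (Finset.sum_le_sum fun e _ => h5 e)
    (show 0 ≤ 1 / (R : ℝ) ^ 2 by positivity))
  rw [← Finset.mul_sum, ← Finset.mul_sum] at h6
  have h7 := mul_le_mul_of_nonneg_right h6 (show 0 ≤ T / (2 * ρ) by positivity)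
  refine le_trans (le_of_eq ?_) (h7.trans (le_of_eq ?_))
  · rw [hρ]
    field_simp
  · field_simp

/-- fixed finite sets of real numbers -/
lemma sets_part (κ : ℝ) (hκ : 0 < κ) : ∃ C : ℝ, 0 < C ∧
    ∀ ε : ℝ, 0 < ε → ε < 1 → ∀ A : Finset ℝ, C / ε ≤ A.card →
      ∃ a ∈ A, ∃ a' ∈ A, a' < a ∧ ∃ᶠ T in atTop,
        (1 - ε) * κ * (T / (2 * Real.pi) * Real.log T) ≤ pairs T (a - a' - κ) (a - a' + κ) := by
  classical
  obtain ⟨C, hC, h⟩ := pairs_part κ hκ
  refine ⟨C, hC, fun ε h0 h1 A hA => ?_⟩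
  obtain ⟨θ, T0, hθ, hT0, h2⟩ := h ε h0 h1
  obtain ⟨f, hf⟩ : ∃ f : Fin A.card → ℝ, f = fun i => ((A.equivFin.symm i : A) : ℝ) := ⟨_, rfl⟩
  have hfA : ∀ i, f i ∈ A := fun i => by rw [hf]; exact (A.equivFin.symm i).2
  have hfinj : Function.Injective f := by
    rw [hf]
    exact Subtype.val_injective.comp A.equivFin.symm.injective
  have hRp : (0 : ℝ) < A.card := lt_of_lt_of_le (by positivity) hA
  obtain ⟨M, hM⟩ : ∃ M : ℝ, ∀ i j, |f i - f j| ≤ M := by
    refine ⟨∑ i, ∑ j, |f i - f j|, fun i j => ?_⟩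
    calc |f i - f j| ≤ ∑ j, |f i - f j| :=
          Finset.single_le_sum (f := fun j => |f i - f j|) (fun _ _ => abs_nonneg _)
            (Finset.mem_univ j)
      _ ≤ _ := Finset.single_le_sum (f := fun i => ∑ j, |f i - f j|)
          (fun _ _ => Finset.sum_nonneg fun _ _ => abs_nonneg _) (Finset.mem_univ i)
  have hev : ∀ᶠ T : ℝ in atTop, ∃ e : Fin 2 ↪ Fin A.card,
      (1 - ε) * κ * (T / (2 * Real.pi) * Real.log T) ≤
        pairs T (f (e 0) - f (e 1) - κ) (f (e 0) - f (e 1) + κ) := by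
    filter_upwards [eventually_ge_atTop T0, eventually_ge_atTop (M / θ),
      eventually_ge_atTop (Real.exp 1)] with T h3 h4 h5
    have hTp : 0 < T := by linarith
    have hl1 : 1 ≤ Real.log T := by
      rw [Real.le_log_iff_exp_le hTp]
      exact h5
    have h6 := h2 T h3 A.card hA f (fun i j => by
      refine (hM i j).trans ?_
      rw [div_le_iff₀ hθ] at h4
      have : T * θ * 1 ≤ T * θ * Real.log T := mul_le_mul_of_nonneg_left hl1 (by positivity)
      linarith)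
    by_contra hcon
    push Not at hcon
    obtain ⟨X, hX⟩ : ∃ X : ℝ, X = (1 - ε) * κ * (T / (2 * Real.pi) * Real.log T) := ⟨_, rfl⟩
    rw [← hX] at h6 hcon
    have hXp : 0 < X := by
      rw [hX]
      have : 0 < 1 - ε := by linarith
      have hpi := Real.pi_pos
      positivity
    have hcard : (Fintype.card (Fin 2 ↪ Fin A.card) : ℝ) ≤ (A.card : ℝ) ^ 2 := by
      have h7 : Fintype.card (Fin 2 ↪ Fin A.card) ≤ Fintype.card (Fin 2 → Fin A.card) :=
        Fintype.card_le_of_injective _ DFunLike.coe_injective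
      rw [Fintype.card_fun, Fintype.card_fin, Fintype.card_fin] at h7
      exact_mod_cast h7
    have h8 : X * (A.card : ℝ) ^ 2 ≤
        ∑ e : Fin 2 ↪ Fin A.card, pairs T (f (e 0) - f (e 1) - κ) (f (e 0) - f (e 1) + κ) := by
      rw [one_div, inv_mul_eq_div, le_div_iff₀ (by positivity)] at h6
      exact h6
    rcases isEmpty_or_nonempty (Fin 2 ↪ Fin A.card) with h9 | h9
    · rw [Finset.univ_eq_empty, Finset.sum_empty] at h8
      have : 0 < X * (A.card : ℝ) ^ 2 := by positivity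
      linarith
    · have h10 := Finset.sum_lt_sum_of_nonempty (s := (Finset.univ : Finset (Fin 2 ↪ Fin A.card)))
        Finset.univ_nonempty (fun e _ => hcon e)
      rw [Finset.sum_const, Finset.card_univ, nsmul_eq_mul] at h10
      have h11 := mul_le_mul_of_nonneg_right hcard hXp.le
      linarith
  have hfr : ∃ e : Fin 2 ↪ Fin A.card, ∃ᶠ T in atTop,
      (1 - ε) * κ * (T / (2 * Real.pi) * Real.log T) ≤
        pairs T (f (e 0) - f (e 1) - κ) (f (e 0) - f (e 1) + κ) := by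
    by_contra hcon
    push Not at hcon
    have h3 : ∀ᶠ T : ℝ in atTop, ∀ e : Fin 2 ↪ Fin A.card,
        pairs T (f (e 0) - f (e 1) - κ) (f (e 0) - f (e 1) + κ) <
          (1 - ε) * κ * (T / (2 * Real.pi) * Real.log T) := by
      rw [eventually_all]
      intro e
      have := hcon e
      exact this
    obtain ⟨T, ⟨e, h4⟩, h5⟩ := (hev.and h3).exists
    exact absurd h4 (not_le.2 (h5 e))
  obtain ⟨e, he⟩ := hfr
  have hne : f (e 0) ≠ f (e 1) := fun h => by
    have := e.injective (hfinj h)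
    exact absurd this (by decide)
  rcases lt_or_gt_of_ne hne with h3 | h3
  · refine ⟨f (e 1), hfA _, f (e 0), hfA _, h3, he.mono fun T hT => ?_⟩
    have h4 := pairs_symm T (f (e 1) - f (e 0)) κ
    have e1 : -(f (e 1) - f (e 0)) = f (e 0) - f (e 1) := by ring
    rw [e1] at h4
    rw [← h4]
    exact hT
  · exact ⟨f (e 0), hfA _, f (e 1), hfA _, h3, he⟩

/-- **The lower bound of the pair correlation conjecture on every difference set.** -/
theorem result :
    -- joint moments at arbitrary translates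
    (∀ (k : ℕ), 1 ≤ k → ∀ κ : ℝ, 0 < κ → ∃ C : ℝ, 0 < C ∧
      ∀ ε : ℝ, 0 < ε → ε < 1 → ∃ θ T₀ : ℝ, 0 < θ ∧ ∀ T : ℝ, T₀ ≤ T →
        ∀ R : ℕ, C / ε ≤ R → ∀ α : Fin R → ℝ, (∀ i j, |α i - α j| ≤ θ * T) →
          (1 - ε) * κ ^ k ≤
            1 / (R : ℝ) ^ k * ∑ e : Fin k ↪ Fin R, joint T κ (fun l => α (e l))) ∧
    -- pairs of zeros at the differences of arbitrary numbers of mean spacings
    (∀ κ : ℝ, 0 < κ → ∃ C : ℝ, 0 < C ∧
      ∀ ε : ℝ, 0 < ε → ε < 1 → ∃ θ T₀ : ℝ, 0 < θ ∧ ∀ T : ℝ, T₀ ≤ T →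
        ∀ R : ℕ, C / ε ≤ R → ∀ a : Fin R → ℝ, (∀ i j, |a i - a j| ≤ θ * (T * Real.log T)) →
          (1 - ε) * κ * (T / (2 * Real.pi) * Real.log T) ≤ 1 / (R : ℝ) ^ 2 *
            ∑ e : Fin 2 ↪ Fin R, pairs T (a (e 0) - a (e 1) - κ) (a (e 0) - a (e 1) + κ)) ∧
    -- fixed finite sets of real numbers
    (∀ κ : ℝ, 0 < κ → ∃ C : ℝ, 0 < C ∧
      ∀ ε : ℝ, 0 < ε → ε < 1 → ∀ A : Finset ℝ, C / ε ≤ A.card →
        ∃ a ∈ A, ∃ a' ∈ A, a' < a ∧ ∃ᶠ T in atTop,
          (1 - ε) * κ * (T / (2 * Real.pi) * Real.log T) ≤ pairs T (a - a' - κ) (a - a' + κ)) := by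
  refine ⟨fun k hk κ hκ => ?_, fun κ hκ => ?_, sets_part⟩
  · obtain ⟨C, hC, h⟩ := joint_part k hk κ hκ
    refine ⟨C, hC, fun ε h0 h1 => ?_⟩
    obtain ⟨θ, T0, hθ, -, h2⟩ := h ε h0 h1
    exact ⟨θ, T0, hθ, h2⟩
  · obtain ⟨C, hC, h⟩ := pairs_part κ hκ
    refine ⟨C, hC, fun ε h0 h1 => ?_⟩
    obtain ⟨θ, T0, hθ, -, h2⟩ := h ε h0 h1
    exact ⟨θ, T0, hθ, h2⟩

end Pool.Agent.Results.MP_00e05b_nt.TranslatesAverage
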