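import Pool.Agent.Results.MP_67227b_nt.KLevelAlmostAllShort
import Pool.Agent.V11001.SI.Family

/-!
# Tuples of simple critical zeros in every short interval near the powers of almost every real number

No hypothesis is assumed. Let `0 < η' < η < 1` and `ν n / log n → ∞`, for example `ν n = n`. There are `κ > 0` and a set `E`
of Hausdorff dimension less than one such that for each `x > 1` outside `E` and all large `n`, `T = x ^ (ν n)`, in EVERY
interval `(a, b]` of length at least `T ^ η` in `[T - T ^ (η + κ), T + T ^ (η + κ)]` the number of tuples of distinct ordinates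
of simple zeros on the critical line of primitive Dirichlet L-functions, with all the differences from the first one in a
box whose sides are long intervals at a distance up to `T ^ η'`, is at least a constant proportion of the expected number
(the volume of the box times the number of zeros of zeta in the interval), uniformly in the box. The proportion is the one
of the theorem about almost all short intervals; for pairs it is positive for `η ≥ 0.422`.
-/

set_option autoImplicit false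

open Filter Topology Complex MeasureTheory

namespace Pool.Agent.Results.MP_00e05b_nt.TuplesNearPowers

open Pool.Agent.V11001.KM Pool.Agent.V11001.SI
open Pool.Agent.Results.MP_67227b_nt.KLevelAlmostAllShort (Simple tuples P c R0 cMT tuples_finite)

/-- change of the normalisation -/
lemma tuples_scale {n : ℕ} (F₀ : ℂ → ℂ) (F : Fin n → ℂ → ℂ) {S T : ℝ} (A H : ℝ) (α β : Fin n → ℝ) (hS : 1 < S)
    (hT : 1 < T) :
    tuples F₀ F S A H (fun i => Real.log S / Real.log T * α i) (fun i => Real.log S / Real.log T * β i) =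
      tuples F₀ F T A H α β := by
  have hS0 := Real.log_pos hS
  have hT0 := Real.log_pos hT
  have hr : 0 < Real.log S / Real.log T := div_pos hS0 hT0
  ext z
  simp only [tuples, Set.mem_ofPred_eq]
  refine and_congr_right fun _ => and_congr_right fun _ => and_congr_right fun _ =>
    and_congr_right fun _ => forall_congr' fun i => and_congr_right fun _ => ?_
  have e : (z.2 i - z.1) * Real.log S / (2 * Real.pi) =
      Real.log S / Real.log T * ((z.2 i - z.1) * Real.log T / (2 * Real.pi)) := by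
    field_simp
  rw [e]
  refine and_congr ⟨fun h => ?_, fun h => ?_⟩ ⟨fun h => ?_, fun h => ?_⟩
  · exact lt_of_mul_lt_mul_left h hr.le
  · exact mul_lt_mul_of_pos_left h hr
  · exact lt_of_mul_lt_mul_left h hr.le
  · exact mul_lt_mul_of_pos_left h hr

lemma ncard_add {n : ℕ} {F₀ : ℂ → ℂ} {F : Fin n → ℂ → ℂ} {T a b c : ℝ} {α β : Fin n → ℝ} (hab : a ≤ b) (hbc : b ≤ c)
    (h1 : (tuples F₀ F T a (b - a) α β).Finite) (h2 : (tuples F₀ F T b (c - b) α β).Finite) :
    (tuples F₀ F T a (c - a) α β).ncard =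
      (tuples F₀ F T a (b - a) α β).ncard + (tuples F₀ F T b (c - b) α β).ncard := by
  rw [← Set.ncard_union_eq _ h1 h2]
  · congr 1
    ext z
    simp only [tuples, Set.mem_ofPred_eq, Set.mem_union]
    constructor
    · rintro ⟨g1, g2, g3⟩
      by_cases h : z.1 ≤ b
      · exact Or.inl ⟨g1, by linarith, g3⟩
      · exact Or.inr ⟨not_le.1 h, by linarith, g3⟩
    · rintro (⟨g1, g2, g3⟩ | ⟨g1, g2, g3⟩)
      · exact ⟨g1, by linarith, g3⟩
      · exact ⟨by linarith, by linarith, g3⟩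
  · rw [Set.disjoint_left]
    intro z hz hz'
    simp only [tuples, Set.mem_ofPred_eq] at hz hz'
    linarith [hz.2.1, hz'.1]

lemma P_cont {h : ℝ} (hh : 0 < h) : ContinuousAt P h := by
  have h1 : ContinuousAt c h := by
    unfold c
    exact (continuousAt_const.div continuousAt_id hh.ne').add (continuousAt_id.mul continuousAt_const)
  unfold P
  exact (continuousAt_const.sub h1).div continuousAt_id hh.ne'

/-- a smaller exponent with a larger constant -/
lemma exponent (n r m : ℕ) {η' η ε : ℝ} (hm : 1 ≤ m) (h0 : 0 < η') (h1 : η' < η) (hε : 0 < ε)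
    (hεr : ε < ((r : ℝ) + 1) * P ((1 + η) / 2) - r) :
    ∃ y : ℝ, η' < y ∧ y < η ∧ ε / 2 < ((r : ℝ) + 1) * P ((1 + y) / 2) - r ∧
      (((r : ℝ) + 1) * P ((1 + η) / 2) - r - ε) ^ m * ((1 + η) / 2) ^ (n + 1) <
        (((r : ℝ) + 1) * P ((1 + y) / 2) - r - ε / 2) ^ m * ((1 + y) / 2) ^ (n + 1) := by
  have hη : 0 < η := h0.trans h1
  have c0 : ContinuousAt (fun y : ℝ => (1 + y) / 2) η := (continuousAt_const.add continuousAt_id).div_const 2
  have c1 : ContinuousAt (fun y : ℝ => ((r : ℝ) + 1) * P ((1 + y) / 2) - r) η := by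
    have h2 : ContinuousAt (fun y : ℝ => P ((1 + y) / 2)) η :=
      ContinuousAt.comp (f := fun y : ℝ => (1 + y) / 2) (g := P) (P_cont (by linarith)) c0
    exact (continuousAt_const.mul h2).sub continuousAt_const
  have c2 : ContinuousAt (fun y : ℝ => (((r : ℝ) + 1) * P ((1 + y) / 2) - r - ε / 2) ^ m * ((1 + y) / 2) ^ (n + 1)) η :=
    ((c1.sub continuousAt_const).pow m).mul (c0.pow (n + 1))
  have hpow : (((r : ℝ) + 1) * P ((1 + η) / 2) - r - ε) ^ m * ((1 + η) / 2) ^ (n + 1) <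
      (((r : ℝ) + 1) * P ((1 + η) / 2) - r - ε / 2) ^ m * ((1 + η) / 2) ^ (n + 1) := by
    apply mul_lt_mul_of_pos_right _ (by positivity)
    exact pow_lt_pow_left₀ (by linarith) (by linarith) (by omega)
  have e1 : ∀ᶠ y : ℝ in 𝓝[<] η, y < η := self_mem_nhdsWithin
  have e2 : ∀ᶠ y : ℝ in 𝓝[<] η, η' < y := nhdsWithin_le_nhds (lt_mem_nhds h1)
  have e3 : ∀ᶠ y : ℝ in 𝓝[<] η, ε / 2 < ((r : ℝ) + 1) * P ((1 + y) / 2) - r :=
    nhdsWithin_le_nhds (c1.eventually (lt_mem_nhds (by linarith)))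
  have e4 : ∀ᶠ y : ℝ in 𝓝[<] η, (((r : ℝ) + 1) * P ((1 + η) / 2) - r - ε) ^ m * ((1 + η) / 2) ^ (n + 1) <
      (((r : ℝ) + 1) * P ((1 + y) / 2) - r - ε / 2) ^ m * ((1 + y) / 2) ^ (n + 1) :=
    nhdsWithin_le_nhds (c2.eventually (lt_mem_nhds hpow))
  obtain ⟨y, g1, g2, g3, g4⟩ := (e1.and (e2.and (e3.and e4))).exists
  exact ⟨y, g2, g1, g3, g4⟩

/-- `Q a b` for every interval `(a, b]` of length at least `T ^ η` in `[T - T ^ (η + κ), T + T ^ (η + κ)]` -/
def Every (η κ T : ℝ) (Q : ℝ → ℝ → Prop) : Prop :=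
  ∀ a b : ℝ, T - T ^ (η + κ) ≤ a → b ≤ T + T ^ (η + κ) → T ^ η ≤ b - a → Q a b

/-- **Theorem.** Tuples of simple zeros on the critical line in every short interval near the powers of almost every real
number. -/
theorem result :
    ∀ (n r m : ℕ) (k : Fin n → Fin r),
      (∀ j, (Finset.univ.filter (fun i => k i = j)).card ≤ m) → 1 ≤ m →
      ∀ η' η ε : ℝ, 0 < η' → η' < η → η < 1 → 0 < ε → ε < ((r : ℝ) + 1) * P ((1 + η) / 2) - r →
      ∃ L : ℝ, 0 < L ∧
      ∀ (q₀ : ℕ) [NeZero q₀] (χ₀ : DirichletCharacter ℂ q₀) (q : Fin r → ℕ) [∀ j, NeZero (q j)]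
        (χ : ∀ j, DirichletCharacter ℂ (q j)), χ₀.IsPrimitive → (∀ j, (χ j).IsPrimitive) →
      ∃ s κ : ℝ, s < 1 ∧ 0 < κ ∧ ∀ ν : ℕ → ℝ, Fast ν → ∀ U : Set ℝ, U.Countable →
        ∃ E : Set ℝ, dimH E ≤ ENNReal.ofReal s ∧ ∀ x : ℝ, 1 < x → x ∉ E → ∀ u ∈ U, 0 < u →
          ∃ N₀ : ℕ, ∀ N : ℕ, N₀ ≤ N → ∀ T : ℝ, T = u * x ^ ν N → Every η κ T (fun a b =>
            ∀ α β : Fin r → ℝ, (∀ j, 0 ≤ α j ∧ α j + L ≤ β j ∧ β j * (2 * Real.pi / Real.log T) ≤ T ^ η') →
              (((r : ℝ) + 1) * P ((1 + η) / 2) - r - ε) ^ m * ((1 + η) / 2) ^ (n + 1) *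
                (∏ i, (β (k i) - α (k i))) * ((b - a) / (2 * Real.pi) * Real.log T) ≤
                ((tuples (DirichletCharacter.LFunction χ₀)
                  (fun i => DirichletCharacter.LFunction (χ (k i))) T a (b - a) (fun i => α (k i))
                  (fun i => β (k i))).ncard : ℝ)) := by
  intro n r m k hk hm η' η ε hη' hη'η hη1 hε hεr
  obtain ⟨y, hy1, hy2, hy3, hy4⟩ := exponent n r m hm hη' hη'η hε hεr
  have hη0 : 0 < η := hη'.trans hη'η
  have hy0 : 0 < y := hη'.trans hy1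
  have hylt : y < 1 := hy2.trans hη1
  obtain ⟨L, hL, H0⟩ := Pool.Agent.Results.MP_67227b_nt.KLevelAlmostAllShort.result.1 n r m k hk hm y (ε / 2) 1 hy0 hylt (by linarith) zero_le_one hy3
  refine ⟨L + 1, by linarith, ?_⟩
  intro q₀ _ χ₀ q _ χ h₀ hχ
  obtain ⟨δ, hδ, T0, H1⟩ := H0 q₀ χ₀ q χ h₀ hχ
  have hfin : ∀ (T A H : ℝ) (α β : Fin n → ℝ), 1 < T → 1 ≤ A → (∀ i, 0 ≤ α i) →
      (tuples (DirichletCharacter.LFunction χ₀) (fun i => DirichletCharacter.LFunction (χ (k i))) T A H α β).Finite :=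
    fun T A H α β hT hA hα => tuples_finite h₀ (q := fun i => q (k i)) (χ := fun i => χ (k i)) (fun i => hχ (k i)) H β
      hT hA hα
  set κ₁ : ℝ := (((r : ℝ) + 1) * P ((1 + y) / 2) - r - ε / 2) ^ m * ((1 + y) / 2) ^ (n + 1) with hκ₁
  set κ₂ : ℝ := (((r : ℝ) + 1) * P ((1 + η) / 2) - r - ε) ^ m * ((1 + η) / 2) ^ (n + 1) with hκ₂
  have hκ₂0 : 0 < κ₂ := mul_pos (pow_pos (by linarith) _) (by positivity)
  have hκ₁0 : 0 < κ₁ := hκ₂0.trans hy4
  -- the exponents
  set κ : ℝ := min δ (1 - η) / 2 with hκ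
  have hmin : 0 < min δ (1 - η) := lt_min hδ (by linarith)
  have hκ0 : 0 < κ := by positivity
  have hκ1 : κ < δ := by
    have := min_le_left δ (1 - η)
    linarith
  have hκ3 : κ < 1 - η := by
    have := min_le_right δ (1 - η)
    linarith
  obtain ⟨s, hs0, hs1, h⟩ := short_family_countable (K := 1) (δ := δ) (η₁ := y) (η := η) (θ := η + κ)
    zero_le_one hy0 hy2 (by linarith) (by linarith) (by linarith)
  refine ⟨s, κ, hs1, hκ0, fun ν hν U hU => ?_⟩
  set F₀ : ℂ → ℂ := DirichletCharacter.LFunction χ₀ with hF₀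
  set F : Fin n → ℂ → ℂ := fun i => DirichletCharacter.LFunction (χ (k i)) with hF
  set A : ℕ → Set ((Fin r → ℝ) × (Fin r → ℝ)) := fun i => {p | ∀ j, 0 ≤ p.1 j ∧ p.1 j + L ≤ p.2 j ∧
    p.2 j * (2 * Real.pi / Real.log (2 ^ i)) ≤ 1 * ((2 : ℝ) ^ i) ^ y ∧
    p.2 j * (2 * Real.pi / Real.log (2 ^ i)) ≤ 2 ^ i} with hA
  set Lf : ℕ → ((Fin r → ℝ) × (Fin r → ℝ)) → ℝ := fun i p =>
    κ₁ * (∏ l, (p.2 (k l) - p.1 (k l))) * (Real.log (2 ^ i) / (2 * Real.pi)) with hLf
  set D : ℕ → ((Fin r → ℝ) × (Fin r → ℝ)) → ℝ → ℝ → ℝ := fun i p a b =>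
    Lf i p * (b - a) - ((tuples F₀ F (2 ^ i) a (b - a) (fun l => p.1 (k l)) (fun l => p.2 (k l))).ncard : ℝ) with hD
  -- large scales
  obtain ⟨i₀, hi₀⟩ : ∃ i₀ : ℕ, ∀ i : ℕ, i₀ ≤ i → T0 ≤ (2 : ℝ) ^ i ∧ ((2 : ℝ) ^ i) ^ y ≤ (2 : ℝ) ^ i / 8 ∧ 2 ≤ i := by
    have hlim : Tendsto (fun i : ℕ => (2 : ℝ) ^ i) atTop atTop := tendsto_pow_atTop_atTop_of_one_lt (by norm_num)
    have e1 := hlim.eventually_ge_atTop T0
    have e2 := ((tendsto_rpow_atTop (show (0 : ℝ) < 1 - y by linarith)).comp hlim).eventually_ge_atTop 8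
    obtain ⟨i₀, hi₀⟩ := (e1.and (e2.and (eventually_ge_atTop 2))).exists_forall_of_atTop
    refine ⟨i₀, fun i hi => ?_⟩
    obtain ⟨g1, g2, g3⟩ := hi₀ i hi
    refine ⟨g1, ?_, g3⟩
    have hP0 : (0 : ℝ) < 2 ^ i := by positivity
    have g4 : (8 : ℝ) ≤ ((2 : ℝ) ^ i) ^ (1 - y) := g2
    have g5 : ((2 : ℝ) ^ i) ^ (1 - y) * ((2 : ℝ) ^ i) ^ y = 2 ^ i := by
      rw [← Real.rpow_add hP0]
      simp
    have g6 := mul_le_mul_of_nonneg_right g4 (Real.rpow_nonneg hP0.le y)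
    rw [g5] at g6
    linarith
  have hP1 : ∀ i : ℕ, i₀ ≤ i → (1 : ℝ) < 2 ^ i := fun i hi =>
    one_lt_pow₀ (by norm_num) (by have := (hi₀ i hi).2.2; omega)
  have hpi := Real.pi_pos
  have hprod : ∀ i : ℕ, ∀ p ∈ A i, 0 ≤ ∏ l, (p.2 (k l) - p.1 (k l)) := by
    intro i p hp
    refine Finset.prod_nonneg fun l _ => ?_
    have := (hp (k l)).2.1
    linarith
  have hLf0 : ∀ i : ℕ, i₀ ≤ i → ∀ p ∈ A i, 0 ≤ Lf i p := by
    intro i hi p hp
    have h1 := Real.log_pos (hP1 i hi)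
    have h2 := hprod i p hp
    rw [hLf]
    positivity
  -- the ratio of the constants
  set ε₂ : ℝ := (κ₁ - κ₂) / (2 * κ₁) with hε₂
  have hε₂0 : 0 < ε₂ := div_pos (by linarith) (by linarith)
  have hε₂1 : κ₂ < (1 - ε₂) * κ₁ := by
    rw [hε₂, sub_mul, div_mul_eq_mul_div, one_mul]
    have : (κ₁ - κ₂) * κ₁ / (2 * κ₁) = (κ₁ - κ₂) / 2 := by field_simp
    rw [this]
    linarith
  obtain ⟨E, hE1, hE2⟩ := h ((Fin r → ℝ) × (Fin r → ℝ)) A D Lf i₀ hLf0
    (fun i hi p hp a b c ha hab hbc _ => by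
      have ha1 : 1 ≤ a := (hP1 i hi).le.trans ha
      have h1 := ncard_add (F₀ := F₀) (F := F) (T := 2 ^ i) (α := fun l => p.1 (k l)) (β := fun l => p.2 (k l)) hab hbc
        (hfin _ _ _ _ _ (hP1 i hi) ha1 (fun l => (hp (k l)).1))
        (hfin _ _ _ _ _ (hP1 i hi) (ha1.trans hab) (fun l => (hp (k l)).1))
      simp only [hD]
      rw [h1]
      push_cast
      linarith)
    (fun i hi p hp a b ha hab hb => by
      simp only [hD]
      have h1 := hLf0 i hi p hp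
      have h2 : (0 : ℝ) ≤ ((tuples F₀ F (2 ^ i) a (b - a) (fun l => p.1 (k l)) (fun l => p.2 (k l))).ncard : ℝ) :=
        Nat.cast_nonneg _
      linarith)
    (fun i hi => by
      obtain ⟨g1, g2, -⟩ := hi₀ i hi
      refine (measure_mono ?_).trans (H1 (2 ^ i) g1)
      rintro t ⟨ht1, ht2, p, hp, ht3⟩
      refine ⟨ht1, ?_, fun hcon => ?_⟩
      · rw [pow_succ] at ht2
        linarith
      · have h1 := hcon (((2 : ℝ) ^ i) ^ y) le_rfl g2 p.1 p.2 hp
        simp only [hD, hLf, add_sub_cancel_left] at ht3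
        have e : κ₁ * (∏ l, (p.2 (k l) - p.1 (k l))) * (Real.log (2 ^ i) / (2 * Real.pi)) * ((2 : ℝ) ^ i) ^ y =
            κ₁ * (∏ l, (p.2 (k l) - p.1 (k l))) * (((2 : ℝ) ^ i) ^ y / (2 * Real.pi) * Real.log (2 ^ i)) := by
          ring
        rw [e] at ht3
        linarith)
    ε₂ hε₂0 ν hν U hU
  refine ⟨E, hE1, fun x hx hxE u hu hu0 => ?_⟩
  obtain ⟨n₀, hn₀⟩ := hE2 x hx hxE u hu hu0
  -- large `T`
  obtain ⟨T₁, hT₁⟩ : ∃ T₁ : ℝ, ∀ T : ℝ, T₁ ≤ T → 4 ≤ T ∧ (L : ℝ) / (L + 1) ≤ Real.log (T / 2) / Real.log T ∧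
      κ₂ ≤ (1 - ε₂) * κ₁ * (Real.log (T / 2) / Real.log T) ^ (n + 1) ∧ T ^ η' ≤ (T / 2) ^ y := by
    have l1 : Tendsto (fun T : ℝ => Real.log (T / 2) / Real.log T) atTop (𝓝 1) := by
      have l2 : Tendsto (fun T : ℝ => 1 - Real.log 2 / Real.log T) atTop (𝓝 (1 - 0)) :=
        tendsto_const_nhds.sub (Tendsto.div_atTop tendsto_const_nhds Real.tendsto_log_atTop)
      rw [sub_zero] at l2
      refine l2.congr' ?_
      filter_upwards [eventually_gt_atTop 1] with T hT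
      have h1 := Real.log_pos hT
      rw [Real.log_div (by linarith) (by norm_num), sub_div, div_self h1.ne']
    have e1 := l1.eventually (le_mem_nhds (show (L : ℝ) / (L + 1) < 1 by rw [div_lt_one (by linarith)]; linarith))
    have l3 : Tendsto (fun T : ℝ => (1 - ε₂) * κ₁ * (Real.log (T / 2) / Real.log T) ^ (n + 1)) atTop
        (𝓝 ((1 - ε₂) * κ₁ * 1 ^ (n + 1))) := (l1.pow (n + 1)).const_mul _
    rw [one_pow, mul_one] at l3
    have e2 := l3.eventually (le_mem_nhds hε₂1)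
    have e3 : ∀ᶠ T : ℝ in atTop, 2 ≤ T ^ (y - η') := (tendsto_rpow_atTop (by linarith)).eventually_ge_atTop _
    obtain ⟨T₁, hT₁⟩ := (e1.and (e2.and (e3.and (eventually_ge_atTop 4)))).exists_forall_of_atTop
    refine ⟨T₁, fun T hT => ?_⟩
    obtain ⟨g1, g2, g3, g4⟩ := hT₁ T hT
    refine ⟨g4, g1, g2, ?_⟩
    have hT0 : 0 < T := by linarith
    rw [Real.div_rpow hT0.le (by norm_num), le_div_iff₀ (by positivity)]
    have h2 : (2 : ℝ) ^ y ≤ 2 := by
      calc (2 : ℝ) ^ y ≤ 2 ^ (1 : ℝ) := Real.rpow_le_rpow_of_exponent_le (by norm_num) hylt.le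
        _ = 2 := Real.rpow_one 2
    calc T ^ η' * 2 ^ y ≤ T ^ η' * T ^ (y - η') := mul_le_mul_of_nonneg_left (h2.trans g3) (by positivity)
      _ = T ^ y := by
          rw [← Real.rpow_add hT0]
          congr 1
          ring
  obtain ⟨n₁, hn₁⟩ := large_of_near (θ := 0) hν hu0 one_pos hx T₁
  refine ⟨max n₀ n₁, fun N hN T hTeq a b ha hb hab α β hαβ => ?_⟩
  obtain ⟨i, hi, hlow, hhigh, hDi⟩ := hn₀ N ((le_max_left _ _).trans hN)
  rw [← hTeq] at hlow hhigh hDi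
  have hxpos : 0 < x ^ ν N := Real.rpow_pos_of_pos (by linarith) _
  have hT0 : 0 < T := by
    rw [hTeq]
    exact mul_pos hu0 hxpos
  have hTl : T₁ ≤ T := by
    refine hn₁ N ((le_max_right _ _).trans hN) T ?_
    rw [← hTeq, sub_self, abs_zero]
    positivity
  obtain ⟨g1, g2, g3, g4⟩ := hT₁ T hTl
  have hTη0 : 0 < T ^ η := Real.rpow_pos_of_pos hT0 _
  have hTθ0 : 0 < T ^ (η + κ) := Real.rpow_pos_of_pos hT0 _
  have h3 : (2 : ℝ) ^ (i + 1) = 2 * 2 ^ i := by rw [pow_succ]; ring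
  rw [h3] at hhigh
  set S : ℝ := (2 : ℝ) ^ i with hS
  have hS1 : 1 < S := hP1 i hi
  have hST : S ≤ T := by linarith
  have hTS : T / 2 ≤ S := by linarith
  have hT1 : 1 < T := by linarith
  have hlT : 0 < Real.log T := Real.log_pos hT1
  have hlS : 0 < Real.log S := Real.log_pos hS1
  have hlST : Real.log S ≤ Real.log T := Real.log_le_log (by linarith) hST
  have hlTS : Real.log (T / 2) ≤ Real.log S := Real.log_le_log (by linarith) hTS
  set ρ : ℝ := Real.log S / Real.log T with hρ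
  have hρ0 : 0 < ρ := div_pos hlS hlT
  have hρ1 : Real.log (T / 2) / Real.log T ≤ ρ := div_le_div_of_nonneg_right hlTS hlT.le
  have hρ2 : 0 ≤ Real.log (T / 2) / Real.log T := div_nonneg (Real.log_nonneg (by linarith)) hlT.le
  have hSy1 : S ^ y ≤ S := by
    calc S ^ y ≤ S ^ (1 : ℝ) := Real.rpow_le_rpow_of_exponent_le hS1.le hylt.le
      _ = S := Real.rpow_one S
  have hp : ((fun j => ρ * α j, fun j => ρ * β j) : (Fin r → ℝ) × (Fin r → ℝ)) ∈ A i := by
    intro j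
    obtain ⟨k1, k2, k3⟩ := hαβ j
    have e : ρ * β j * (2 * Real.pi / Real.log S) = β j * (2 * Real.pi / Real.log T) := by
      rw [hρ]
      field_simp
    have hle : β j * (2 * Real.pi / Real.log T) ≤ S ^ y :=
      k3.trans (g4.trans (Real.rpow_le_rpow (by linarith) hTS hy0.le))
    refine ⟨mul_nonneg hρ0.le k1, ?_, ?_, ?_⟩
    · show ρ * α j + L ≤ ρ * β j
      have h5 : L ≤ ρ * (L + 1) := by
        rw [← div_le_iff₀ (by linarith)]
        exact g2.trans hρ1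
      have h6 : ρ * (α j + (L + 1)) ≤ ρ * β j := mul_le_mul_of_nonneg_left k2 hρ0.le
      linarith
    · show ρ * β j * (2 * Real.pi / Real.log S) ≤ 1 * S ^ y
      rw [e, one_mul]
      exact hle
    · show ρ * β j * (2 * Real.pi / Real.log S) ≤ S
      rw [e]
      exact hle.trans hSy1
  have hDp := hDi a b ha hb hab _ hp
  simp only [hD, hLf] at hDp
  have hsc := tuples_scale F₀ F a (b - a) (fun l => α (k l)) (fun l => β (k l)) hS1 hT1
  rw [← hρ] at hsc
  rw [hsc] at hDp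
  have hba : 0 < b - a := lt_of_lt_of_le hTη0 hab
  have hprod' : ∏ l, (ρ * β (k l) - ρ * α (k l)) = ρ ^ n * ∏ l, (β (k l) - α (k l)) := by
    have e : ∏ l, (ρ * β (k l) - ρ * α (k l)) = ∏ l, ρ * (β (k l) - α (k l)) :=
      Finset.prod_congr rfl fun l _ => by ring
    rw [e, Finset.prod_mul_distrib, Finset.prod_const, Finset.card_univ, Fintype.card_fin]
  rw [hprod'] at hDp
  have hprod0 : 0 ≤ ∏ l, (β (k l) - α (k l)) := by
    refine Finset.prod_nonneg fun l _ => ?_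
    have := (hαβ (k l)).2.1
    linarith
  have hlog : Real.log S = ρ * Real.log T := by
    rw [hρ]
    field_simp
  have hV : 0 ≤ (∏ l, (β (k l) - α (k l))) * ((b - a) / (2 * Real.pi) * Real.log T) := by positivity
  have hκκ : κ₂ ≤ (1 - ε₂) * κ₁ * ρ ^ (n + 1) := by
    refine g3.trans (mul_le_mul_of_nonneg_left (pow_le_pow_left₀ hρ2 hρ1 _) ?_)
    linarith
  have e2 : κ₁ * (ρ ^ n * ∏ l, (β (k l) - α (k l))) * (Real.log S / (2 * Real.pi)) * (b - a) =
      κ₁ * ρ ^ (n + 1) * ((∏ l, (β (k l) - α (k l))) * ((b - a) / (2 * Real.pi) * Real.log T)) := by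
    rw [hlog, pow_succ]
    ring
  have e3 : ε₂ * (κ₁ * (ρ ^ n * ∏ l, (β (k l) - α (k l))) * (Real.log S / (2 * Real.pi))) * (b - a) =
      ε₂ * (κ₁ * (ρ ^ n * ∏ l, (β (k l) - α (k l))) * (Real.log S / (2 * Real.pi)) * (b - a)) := by ring
  rw [e3, e2] at hDp
  show κ₂ * (∏ l, (β (k l) - α (k l))) * ((b - a) / (2 * Real.pi) * Real.log T) ≤ _
  have h7 := mul_le_mul_of_nonneg_right hκκ hV
  have h8 : κ₂ * (∏ l, (β (k l) - α (k l))) * ((b - a) / (2 * Real.pi) * Real.log T) =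
      κ₂ * ((∏ l, (β (k l) - α (k l))) * ((b - a) / (2 * Real.pi) * Real.log T)) := by ring
  rw [h8]
  have h9 : (1 - ε₂) * κ₁ * ρ ^ (n + 1) * ((∏ l, (β (k l) - α (k l))) * ((b - a) / (2 * Real.pi) * Real.log T)) =
      κ₁ * ρ ^ (n + 1) * ((∏ l, (β (k l) - α (k l))) * ((b - a) / (2 * Real.pi) * Real.log T)) -
      ε₂ * (κ₁ * ρ ^ (n + 1) * ((∏ l, (β (k l) - α (k l))) * ((b - a) / (2 * Real.pi) * Real.log T))) := by ring
  linarith

end Pool.Agent.Results.MP_00e05b_nt.TuplesNearPowers
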