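import Pool.Agent.Y749.Rig.FFf

/-!
# Upper bounds for the means of Montgomery's function imply the asymptotic formulas

Assume the Riemann hypothesis. The strong pair correlation conjecture predicts `F(α, T) → 1` for
`α ≥ 1`, uniformly on bounded intervals; together with Montgomery's theorem this gives
`∫_a^b F(α, T) dα → ∫_a^b min(α, 1) dα` for `0 < a < b`. We prove:

* the UPPER bounds `∫_a^b F(α, T) dα ≤ ∫_a^b min(α, 1) dα + o(1)`, for all `0 < a < b`, are
  equivalent to Montgomery's pair correlation conjecture, so they imply the matching lower bounds;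
* quantitatively, if the upper bounds hold for all `0 < a < b ≤ R`, for one `R ≥ 1`, then
  `∫_a^b F(α, T) dα ≥ ∫_a^b min(α, 1) dα - 1 / (6 (R - b)) - o(1)` for all `0 < a < b < R`.

Everything holds along every filter `l ≤ atTop`, e.g. along a sequence of heights.

Idea of the proof (library `Pool.Agent.Y749.Rig`, not handed in before). The diagonal pairs bound
the pairing of `F` with a tent of width `R` from below by `1 - o(1)`; a deficit of `F` somewhere in
`(0, R)` would have to be compensated by an excess, which the upper bounds exclude, up to the tail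
of the tent.
-/

set_option autoImplicit false

open MeasureTheory Set Filter Topology
open Complex (I)

namespace Pool.Agent.Results.MP_00e05b_nt.UpperBoundsForMeans

/-- the nontrivial zeros of `ζ` with ordinate in `(0, T]` -/
def zeros (T : ℝ) : Set ℂ :=
  {s : ℂ | 0 < s.re ∧ s.re < 1 ∧ 0 < s.im ∧ s.im ≤ T ∧ riemannZeta s = 0}

/-- the multiplicity of `s` as a zero of `ζ` -/
noncomputable def mult (s : ℂ) : ℕ := analyticOrderNatAt riemannZeta s

/-- `(T / 2π) log T` -/
noncomputable def X (T : ℝ) : ℝ := T / (2 * Real.pi) * Real.log T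

/-- Montgomery's function `F(α, T)`, zeros counted with multiplicity -/
noncomputable def F (T α : ℝ) : ℂ :=
  (X T : ℂ)⁻¹ * ∑ᶠ s ∈ zeros T, ∑ᶠ s' ∈ zeros T, (mult s : ℂ) * (mult s' : ℂ) *
    ((T : ℂ) ^ (I * α * (s.im - s'.im)) * (4 / (4 + (s.im - s'.im) ^ 2)))

/-- the upper bounds for the means of `F` over the intervals in `(0, R]` -/
def MeanUpper (l : Filter ℝ) (R : ℝ) : Prop := ∀ a b : ℝ, 0 < a → a < b → b ≤ R →
  ∀ ε : ℝ, 0 < ε → ∀ᶠ T in l, ∫ α in a..b, (F T α).re ≤ (∫ α in a..b, min α 1) + ε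

/-- `N(T; α, β)`: the number of ordered pairs of zeros with ordinates in `(0, T]`, counted with
multiplicity, with `2πα / log T ≤ γ - γ' ≤ 2πβ / log T` -/
noncomputable def N (T α β : ℝ) : ℕ :=
  ∑ᶠ s ∈ zeros T, ∑ᶠ s' ∈ {s' : ℂ | s' ∈ zeros T ∧
    2 * Real.pi * α / Real.log T ≤ s.im - s'.im ∧ s.im - s'.im ≤ 2 * Real.pi * β / Real.log T},
      mult s * mult s'

/-- the constant of Montgomery's conjecture -/
noncomputable def P (α β : ℝ) : ℝ :=
  (∫ u in α..β, (1 - (Real.sin (Real.pi * u) / (Real.pi * u)) ^ 2)) +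
    if α ≤ 0 ∧ 0 ≤ β then 1 else 0

/-- Montgomery's pair correlation conjecture, along the filter `l` -/
def Montgomery (l : Filter ℝ) : Prop := ∀ α β : ℝ, α < β →
  Asymptotics.IsEquivalent l (fun T => (N T α β : ℝ)) (fun T => P α β * X T)

/-- **Theorem.** Assume RH and let `l ≤ atTop`. (1) Montgomery's pair correlation conjecture along `l`
holds if and only if `∫_a^b F(α, T) dα ≤ ∫_a^b min(α, 1) dα + o(1)` for all `0 < a < b`. (2) If these
upper bounds hold for all `0 < a < b ≤ R`, where `R ≥ 1`, then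
`∫_a^b F(α, T) dα ≥ ∫_a^b min(α, 1) dα - 1 / (6 (R - b)) - o(1)` for all `0 < a < b < R`. -/
theorem result (hRH : RiemannHypothesis) (l : Filter ℝ) (hl : l ≤ atTop) :
    (Montgomery l ↔ ∀ R : ℝ, MeanUpper l R) ∧
    (∀ R : ℝ, 1 ≤ R → MeanUpper l R → ∀ a b : ℝ, 0 < a → a < b → b < R → ∀ ε : ℝ, 0 < ε →
      ∀ᶠ T in l, (∫ α in a..b, min α 1) - 1 / (6 * (R - b)) - ε ≤ ∫ α in a..b, (F T α).re) :=
  Pool.Agent.Y749.Rig.P.main hRH l hl

end Pool.Agent.Results.MP_00e05b_nt.UpperBoundsForMeans
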